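import Pool.Agent.H505R3.SLM.Stmts

/-! `TaskB` of project H505-SLM: growth of `Nm`. -/

set_option autoImplicit false

open Module MvPolynomial

namespace Pool.Agent.H662R3.SLM

open Pool.Agent.H546R2.SL

variable {ι : Type*} [Fintype ι]

lemma Nm_third (t c : ℕ) : Nm ι (3 * t + c) ≤ 3 ^ Fintype.card ι * Nm ι (t + c) := by
  classical
  unfold Nm
  have h : 3 ^ Fintype.card ι * Nat.card (Ex ι (t + c)) = Nat.card ((ι → Fin 3) × Ex ι (t + c)) := by
    have h2 : Nat.card (ι → Fin 3) = 3 ^ Fintype.card ι := by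
      rw [Nat.card_eq_fintype_card, Fintype.card_fun, Fintype.card_fin]
    rw [Nat.card_prod, h2]
  rw [h]
  apply Nat.card_le_card_of_injective (fun m : Ex ι (3 * t + c) =>
    ((fun i => (⟨m.1 i % 3, Nat.mod_lt _ (by norm_num)⟩ : Fin 3),
      (⟨Finsupp.equivFunOnFinite.symm (fun i => m.1 i / 3), by
        have hm := m.2
        rw [mem_Ex] at hm ⊢
        simp only [Finsupp.equivFunOnFinite_symm_apply_apply]
        have h3 : 3 * ∑ i, m.1 i / 3 ≤ ∑ i, m.1 i := by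
          rw [Finset.mul_sum]
          exact Finset.sum_le_sum fun i _ => Nat.mul_div_le _ _
        omega⟩ : Ex ι (t + c))) : (ι → Fin 3) × Ex ι (t + c)))
  intro m m' hab
  have h1 : ∀ i, m.1 i % 3 = m'.1 i % 3 := by
    intro i
    have := congrArg (fun y : (ι → Fin 3) × Ex ι (t + c) => ((y.1 i : Fin 3) : ℕ)) hab
    simpa using this
  have h2 : ∀ i, m.1 i / 3 = m'.1 i / 3 := by
    intro i
    have := congrArg (fun y : (ι → Fin 3) × Ex ι (t + c) => y.2.1 i) hab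
    simpa using this
  apply Subtype.ext
  ext i
  rw [← Nat.div_add_mod (m.1 i) 3, ← Nat.div_add_mod (m'.1 i) 3, h1 i, h2 i]

lemma growth (a B c : ℕ) (h : ∀ τ, a * Nm ι τ ≤ B * Nm ι (τ + c)) : a ≤ B := by
  by_contra hcon
  push Not at hcon
  rcases Nat.eq_zero_or_pos B with hB0 | hBpos
  · have h0 := h 0
    rw [hB0, zero_mul] at h0
    have := Nat.mul_pos (lt_of_le_of_lt (Nat.zero_le _) hcon) (Nm_pos (ι := ι) 0)
    omega
  set D := Fintype.card ι with hD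
  have h1 : ∀ τ, (B + 1) * Nm ι τ ≤ B * Nm ι (τ + c) := by
    intro τ
    exact (Nat.mul_le_mul_right _ hcon).trans (h τ)
  have h2 : ∀ j : ℕ, (B + 1) ^ j ≤ B ^ j * Nm ι (j * c) := by
    intro j
    induction j with
    | zero =>
      rw [pow_zero, pow_zero, one_mul]
      exact Nm_pos _
    | succ j ih =>
      calc (B + 1) ^ (j + 1) = (B + 1) ^ j * (B + 1) := pow_succ _ _
        _ ≤ (B ^ j * Nm ι (j * c)) * (B + 1) := Nat.mul_le_mul_right _ ih
        _ = B ^ j * ((B + 1) * Nm ι (j * c)) := by ring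
        _ ≤ B ^ j * (B * Nm ι (j * c + c)) := Nat.mul_le_mul_left _ (h1 _)
        _ = B ^ (j + 1) * Nm ι ((j + 1) * c) := by ring_nf
  have h3 : ∀ j : ℕ, ((B + 1 : ℕ) : ℝ) ^ j ≤ ((B : ℕ) : ℝ) ^ j * (((j * c + 1 : ℕ) : ℝ)) ^ D := by
    intro j
    have : (B + 1) ^ j ≤ B ^ j * (j * c + 1) ^ D :=
      (h2 j).trans (Nat.mul_le_mul_left _ (Nm_le _))
    exact_mod_cast this
  set ρ : ℝ := ((B + 1 : ℕ) : ℝ) / ((B : ℕ) : ℝ) with hρ
  have hRpos : (0 : ℝ) < ((B : ℕ) : ℝ) := by exact_mod_cast hBpos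
  have hρ1 : 1 < ρ := by
    rw [hρ, lt_div_iff₀ hRpos]
    push_cast
    linarith
  have h4 : ∀ j : ℕ, ρ ^ j ≤ (((j * c + 1 : ℕ) : ℝ)) ^ D := by
    intro j
    rw [hρ, div_pow, div_le_iff₀ (by positivity)]
    linarith [h3 j, mul_comm ((((j * c + 1 : ℕ) : ℝ)) ^ D) (((B : ℕ) : ℝ) ^ j)]
  have hlim := tendsto_pow_const_div_const_pow_of_one_lt D hρ1
  have hpos : (0 : ℝ) < 1 / (((c : ℝ) + 1) ^ D + 1) := by positivity
  have hev := (hlim.eventually (gt_mem_nhds hpos)).and (Filter.eventually_ge_atTop 1)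
  obtain ⟨j, hj, hj1⟩ := hev.exists
  have hρj : (0 : ℝ) < ρ ^ j := by positivity
  rw [div_lt_div_iff₀ hρj (by positivity)] at hj
  have hj1' : (1 : ℝ) ≤ j := by exact_mod_cast hj1
  have h5 : (((j * c + 1 : ℕ) : ℝ)) ^ D ≤ ((j : ℝ) * (c + 1)) ^ D := by
    apply pow_le_pow_left₀ (by positivity)
    push_cast
    nlinarith
  rw [mul_pow] at h5
  have h6 := h4 j
  have hjD : (0 : ℝ) < (j : ℝ) ^ D := by positivity
  nlinarith

theorem taskB' : ∀ (ι : Type) [Fintype ι] (a b c : ℕ),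
    (∀ t, a * Nm ι t ≤ b * Nm ι (3 * t + c)) → a ≤ b * 3 ^ Fintype.card ι := by
  intro ι _ a b c h
  refine growth (ι := ι) a (b * 3 ^ Fintype.card ι) c fun τ => ?_
  calc a * Nm ι τ ≤ b * Nm ι (3 * τ + c) := h τ
    _ ≤ b * (3 ^ Fintype.card ι * Nm ι (τ + c)) := Nat.mul_le_mul_left _ (Nm_third τ c)
    _ = b * 3 ^ Fintype.card ι * Nm ι (τ + c) := (mul_assoc _ _ _).symm

theorem taskB : Pool.Agent.H505R3.SLM.TaskB := fun ι _ a b c h => taskB' ι a b c h

end Pool.Agent.H662R3.SLM
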